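import Pool.Agent.Q47.GEO.Cham

/-!
# The minimum of a linear form on the fibres of a projection of a cone
-/

set_option autoImplicit false

namespace Q47.FLIP

open Q47.GEO

variable {J ι : Type*} [Fintype J] [Fintype ι] {p : ℕ}

/-- The minimum of the linear form with the coefficients `z` on the fibre. -/
noncomputable def low (T : Fin p → J → ℕ) (a : Fin p → ι → ℕ) (z : ι → ℕ) (t : J → ℝ) : ℝ :=
  sInf {x | ∃ β ∈ fib T a t, x = ∑ i, β i * z i}

omit [Fintype J] in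
theorem low_bdd (T : Fin p → J → ℕ) (a : Fin p → ι → ℕ) (z : ι → ℕ) (t : J → ℝ) :
    BddBelow {x : ℝ | ∃ β ∈ fib T a t, x = ∑ i, β i * z i} := by
  refine ⟨0, ?_⟩
  rintro x ⟨β, ⟨r, hr, -, hβ⟩, rfl⟩
  refine Finset.sum_nonneg fun i _ => mul_nonneg ?_ (Nat.cast_nonneg _)
  rw [hβ i]
  exact Finset.sum_nonneg fun l _ => mul_nonneg (hr l) (Nat.cast_nonneg _)

omit [Fintype J] in
theorem low_le {T : Fin p → J → ℕ} {a : Fin p → ι → ℕ} (z : ι → ℕ) {t : J → ℝ} {β : ι → ℝ}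
    (hβ : β ∈ fib T a t) : low T a z t ≤ ∑ i, β i * z i :=
  csInf_le (low_bdd T a z t) ⟨β, hβ, rfl⟩

omit [Fintype J] in
/-- The value of the linear form. -/
theorem form_eq (a : Fin p → ι → ℕ) (z : ι → ℕ) (r : Fin p → ℝ) :
    ∑ i, (∑ l, r l * (a l i : ℝ)) * z i = ∑ l, r l * ((∑ i, a l i * z i : ℕ) : ℝ) := by
  simp only [Finset.sum_mul]
  rw [Finset.sum_comm]
  refine Finset.sum_congr rfl fun l _ => ?_
  push_cast
  rw [Finset.mul_sum]
  exact Finset.sum_congr rfl fun i _ => by ring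

/-- The minimum is attained at a rational point. -/
theorem exists_min {T : Fin p → J → ℕ} (hT : ∀ l, T l ≠ 0) (a : Fin p → ι → ℕ) (z : ι → ℕ)
    {t : J → ℕ} (h : (fib T a fun j => (t j : ℝ)).Nonempty) :
    ∃ K : ℕ, 1 ≤ K ∧ ∃ ν : Fin p → ℕ, (∀ j, K * t j = ∑ l, ν l * T l j) ∧
      ((∑ l, ν l * ∑ i, a l i * z i : ℕ) : ℝ) = K * low T a z fun j => (t j : ℝ) := by
  classical
  -- the points with linearly independent support
  let A : Set (Fin p → ℝ) := {r | (∀ l, 0 ≤ r l) ∧ (∀ j, (t j : ℝ) = ∑ l, r l * T l j) ∧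
    ∃ I : Finset (Fin p), (∀ l, l ∉ I → r l = 0) ∧ LinearIndependent ℚ fun l : I => rv T l}
  have hAfin : A.Finite := by
    have h1 : A ⊆ ⋃ I : Finset (Fin p), {r | r ∈ A ∧ (∀ l, l ∉ I → r l = 0) ∧
        LinearIndependent ℚ fun l : I => rv T l} := by
      intro r hr
      obtain ⟨I, hI1, hI2⟩ := hr.2.2
      exact Set.mem_iUnion.2 ⟨I, hr, hI1, hI2⟩
    refine Set.Finite.subset (Set.finite_iUnion fun I => ?_) h1
    apply Set.Subsingleton.finite
    rintro r ⟨hr, hrI, hI⟩ r' ⟨hr', hrI', -⟩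
    obtain ⟨W, -, -, hW⟩ := walls T I hI
    exact hW r r' hrI hrI' fun j => by rw [← hr.2.1 j, ← hr'.2.1 j]
  obtain ⟨-, r₀, hr₀, hr₀t, -⟩ := h
  have hAne : A.Nonempty := by
    by_contra hcon
    rw [Set.not_nonempty_iff_eq_empty] at hcon
    have h1 := reduce hT (fun _ (_ : Unit) => 0) (C := (∅ : Set (Unit → ℝ))) convex_empty
      (t := fun j => (t j : ℝ)) (fun r I hr hrI hI hrt => by
        have : r ∈ A := ⟨hr, hrt, I, hrI, hI⟩
        rw [hcon] at this
        exact this.elim) _ r₀ le_rfl hr₀ hr₀t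
    exact h1
  obtain ⟨q, hq, hmin⟩ := Set.exists_min_image A
    (fun r => ∑ l, r l * ((∑ i, a l i * z i : ℕ) : ℝ)) hAfin hAne
  have hmin' : ∀ r : Fin p → ℝ, (∀ l, 0 ≤ r l) → (∀ j, (t j : ℝ) = ∑ l, r l * T l j) →
      ∑ l, q l * ((∑ i, a l i * z i : ℕ) : ℝ) ≤ ∑ l, r l * ((∑ i, a l i * z i : ℕ) : ℝ) := by
    intro r hr hrt
    have hconv : Convex ℝ {β : Unit → ℝ | ∑ l, q l * ((∑ i, a l i * z i : ℕ) : ℝ) ≤ β ()} := by
      intro β hβ β' hβ' x y hx hy hxy
      simp only [Set.mem_ofPred_eq] at hβ hβ' ⊢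
      rw [Pi.add_apply, Pi.smul_apply, Pi.smul_apply, smul_eq_mul, smul_eq_mul]
      set o := ∑ l, q l * ((∑ i, a l i * z i : ℕ) : ℝ)
      have h1 := mul_le_mul_of_nonneg_left hβ hx
      have h2 := mul_le_mul_of_nonneg_left hβ' hy
      have h3 : o = x * o + y * o := by rw [← add_mul, hxy, one_mul]
      linarith
    exact reduce hT (fun l (_ : Unit) => ∑ i, a l i * z i) hconv (t := fun j => (t j : ℝ))
      (fun r I hr hrI hI hrt => hmin r ⟨hr, hrt, I, hrI, hI⟩) _ r le_rfl hr hrt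
  have hlow : low T a z (fun j => (t j : ℝ)) = ∑ l, q l * ((∑ i, a l i * z i : ℕ) : ℝ) := by
    apply IsLeast.csInf_eq
    constructor
    · exact ⟨_, ⟨q, hq.1, hq.2.1, fun i => rfl⟩, (form_eq a z q).symm⟩
    · rintro x ⟨β, ⟨r, hr, hrt, hβ⟩, rfl⟩
      simp only [hβ]
      rw [form_eq]
      exact hmin' r hr hrt
  obtain ⟨hq0, hqt, I, hqI, hI⟩ := hq
  obtain ⟨M, Z, hM, hZ⟩ := left_inv T I hI
  have h2 : ∀ l, ∃ μ : ℕ, (μ : ℝ) = M * q l := by
    intro l
    by_cases hl : l ∈ I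
    · have h3 := left_inv_apply hZ hqI hl
      simp only [← hqt] at h3
      have h4 : ((∑ j, Z l j * (t j : ℤ) : ℤ) : ℝ) = M * q l := by
        rw [← h3]
        push_cast
        rfl
      have h5 : 0 ≤ ∑ j, Z l j * (t j : ℤ) := by
        have h6 : (0 : ℝ) ≤ ((∑ j, Z l j * (t j : ℤ) : ℤ) : ℝ) := by
          rw [h4]
          exact mul_nonneg (Nat.cast_nonneg _) (hq0 l)
        exact_mod_cast h6
      obtain ⟨μ, hμ⟩ := Int.eq_ofNat_of_zero_le h5
      refine ⟨μ, ?_⟩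
      rw [← h4, hμ]
      push_cast
      rfl
    · exact ⟨0, by rw [hqI l hl]; simp⟩
  choose ν hν using h2
  refine ⟨M, hM, ν, fun j => ?_, ?_⟩
  · have h3 : ((M * t j : ℕ) : ℝ) = ((∑ l, ν l * T l j : ℕ) : ℝ) := by
      push_cast
      rw [hqt j, Finset.mul_sum]
      exact Finset.sum_congr rfl fun l _ => by rw [hν]; ring
    exact_mod_cast h3
  · rw [hlow, Finset.mul_sum, Nat.cast_sum]
    refine Finset.sum_congr rfl fun l _ => ?_
    rw [Nat.cast_mul, hν]
    ring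

omit [Fintype J] in
/-- The points near multiples of `t`. -/
theorem low_near {T : Fin p → J → ℕ} (a : Fin p → ι → ℕ) (z : ι → ℕ) (t : J → ℕ)
    (ht : ∀ k : ℕ, low T a z (fun j => ((k * t j : ℕ) : ℝ)) = k * low T a z fun j => (t j : ℝ))
    (w : J → ℤ) : ∃ C : ℕ, ∀ (k : ℕ) (μ : Fin p → ℕ),
      (∀ j, ((k * t j : ℕ) : ℤ) = ∑ l, (μ l : ℤ) * T l j + w j) →
        (k : ℝ) * low T a z (fun j => (t j : ℝ)) ≤ ((∑ l, μ l * ∑ i, a l i * z i : ℕ) : ℝ) + C := by
  classical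
  by_contra hcon
  push Not at hcon
  choose k μ h1 h2 using hcon
  have hw : WellQuasiOrdered fun x y : ℕ × (Fin p → ℕ) => x.1 ≤ y.1 ∧ x.2 ≤ y.2 :=
    WellQuasiOrdered.prod (r := fun x y : ℕ => x ≤ y) (s := fun x y : Fin p → ℕ => x ≤ y)
      wellQuasiOrdered_le wellQuasiOrdered_le
  have : IsPreorder (ℕ × (Fin p → ℕ)) fun x y => x.1 ≤ y.1 ∧ x.2 ≤ y.2 :=
    { refl := fun x => ⟨le_rfl, le_rfl⟩
      trans := fun x y z hxy hyz => ⟨hxy.1.trans hyz.1, hxy.2.trans hyz.2⟩ }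
  obtain ⟨g, hg⟩ := hw.exists_monotone_subseq fun C => (k C, μ C)
  set o := low T a z fun j => (t j : ℝ)
  obtain ⟨n, hn⟩ := exists_nat_ge ((k (g 0) : ℝ) * o)
  obtain ⟨h3, h4⟩ := hg 0 n (Nat.zero_le n)
  have h4' : ∀ l, μ (g 0) l ≤ μ (g n) l := h4
  have h3' : k (g 0) ≤ k (g n) := h3
  -- the difference
  have h5 : (fun i => ∑ l, ((μ (g n) l - μ (g 0) l : ℕ) : ℝ) * (a l i : ℝ))
      ∈ fib T a fun j => (((k (g n) - k (g 0)) * t j : ℕ) : ℝ) := by
    refine ⟨fun l => ((μ (g n) l - μ (g 0) l : ℕ) : ℝ), fun l => Nat.cast_nonneg _, fun j => ?_,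
      fun i => rfl⟩
    have h6 := h1 (g 0) j
    have h7 := h1 (g n) j
    have h8 : ((((k (g n) - k (g 0)) * t j : ℕ) : ℤ))
        = ∑ l, ((μ (g n) l - μ (g 0) l : ℕ) : ℤ) * (T l j : ℤ) := by
      have h9 : ∑ l, ((μ (g n) l - μ (g 0) l : ℕ) : ℤ) * (T l j : ℤ)
          = ∑ l, (μ (g n) l : ℤ) * T l j - ∑ l, (μ (g 0) l : ℤ) * T l j := by
        rw [← Finset.sum_sub_distrib]
        refine Finset.sum_congr rfl fun l _ => ?_
        rw [Nat.cast_sub (h4' l)]
        ring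
      rw [h9]
      push_cast at h6 h7
      rw [Nat.cast_mul, Nat.cast_sub h3', sub_mul, h6, h7]
      ring
    beta_reduce
    exact_mod_cast h8
  have h6 := low_le z h5
  rw [form_eq, ht] at h6
  have h7 := h2 (g n)
  have h8 : ∑ l, ((μ (g n) l - μ (g 0) l : ℕ) : ℝ) * ((∑ i, a l i * z i : ℕ) : ℝ)
      = ((∑ l, μ (g n) l * ∑ i, a l i * z i : ℕ) : ℝ)
        - ((∑ l, μ (g 0) l * ∑ i, a l i * z i : ℕ) : ℝ) := by
    rw [Nat.cast_sum, Nat.cast_sum, ← Finset.sum_sub_distrib]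
    refine Finset.sum_congr rfl fun l _ => ?_
    rw [Nat.cast_mul, Nat.cast_mul, Nat.cast_sub (h4' l)]
    ring
  rw [h8, Nat.cast_sub h3', sub_mul] at h6
  have h9 : (n : ℝ) ≤ (g n : ℕ) := by exact_mod_cast g.strictMono.le_apply
  have h10 : (0 : ℝ) ≤ ((∑ l, μ (g 0) l * ∑ i, a l i * z i : ℕ) : ℝ) := Nat.cast_nonneg _
  linarith

omit [Fintype J] [Fintype ι] in
/-- Scaling of the fibres. -/
theorem fib_smul {T : Fin p → J → ℕ} {a : Fin p → ι → ℕ} {t : J → ℝ} {β : ι → ℝ}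
    (hβ : β ∈ fib T a t) {x : ℝ} (hx : 0 ≤ x) :
    (fun i => x * β i) ∈ fib T a fun j => x * t j := by
  obtain ⟨r, hr, ht, hb⟩ := hβ
  refine ⟨fun l => x * r l, fun l => mul_nonneg hx (hr l), fun j => ?_, fun i => ?_⟩
  · beta_reduce
    rw [ht j, Finset.mul_sum]
    exact Finset.sum_congr rfl fun l _ => by ring
  · beta_reduce
    rw [hb i, Finset.mul_sum]
    exact Finset.sum_congr rfl fun l _ => by ring

omit [Fintype ι] in
/-- The fibre over the origin. -/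
theorem fib_zero {T : Fin p → J → ℕ} (hT : ∀ l, T l ≠ 0) (a : Fin p → ι → ℕ) :
    fib T a (fun _ => 0) = {0} := by
  apply Set.Subset.antisymm
  · rintro β ⟨r, hr, ht, hb⟩
    have hTpos : ∀ l, 0 < ∑ j, (T l j : ℝ) := by
      intro l
      have h1 : ∃ j, T l j ≠ 0 := by
        by_contra h0
        push Not at h0
        exact hT l (funext h0)
      obtain ⟨j, hj⟩ := h1
      refine Finset.sum_pos' (fun j _ => Nat.cast_nonneg _) ⟨j, Finset.mem_univ j, ?_⟩
      positivity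
    have h1 : ∑ l, r l * ∑ j, (T l j : ℝ) = 0 := by
      simp only [Finset.mul_sum]
      rw [Finset.sum_comm]
      exact Finset.sum_eq_zero fun j _ => (ht j).symm
    have h2 : ∀ l, r l = 0 := fun l => by
      have h3 := (Finset.sum_eq_zero_iff_of_nonneg fun l _ =>
        mul_nonneg (hr l) (hTpos l).le).1 h1 l (Finset.mem_univ l)
      exact (mul_eq_zero.1 h3).resolve_right (hTpos l).ne'
    rw [Set.mem_singleton_iff]
    funext i
    rw [hb i, Pi.zero_apply]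
    exact Finset.sum_eq_zero fun l _ => by rw [h2, zero_mul]
  · rintro β rfl
    exact ⟨fun _ => 0, fun _ => le_rfl, fun j => by simp, fun i => by simp⟩

/-- Homogeneity. -/
theorem low_smul {T : Fin p → J → ℕ} (hT : ∀ l, T l ≠ 0) (a : Fin p → ι → ℕ) (z : ι → ℕ)
    {t : J → ℝ} {x : ℝ} (hx : 0 ≤ x) (h : (fib T a t).Nonempty) :
    low T a z (fun j => x * t j) = x * low T a z t := by
  rcases hx.eq_or_lt with rfl | hx
  · have h1 : (fun j => (0 : ℝ) * t j) = fun _ => 0 := funext fun j => zero_mul _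
    rw [h1, low, fib_zero hT a, zero_mul]
    have h2 : {x : ℝ | ∃ β ∈ ({0} : Set (ι → ℝ)), x = ∑ i, β i * (z i : ℝ)} = {0} := by
      ext x
      simp
    rw [h2, csInf_singleton]
  · have h0 : x ≠ 0 := hx.ne'
    have hne : ∀ {s : J → ℝ}, (fib T a s).Nonempty →
        {x : ℝ | ∃ β ∈ fib T a s, x = ∑ i, β i * z i}.Nonempty := fun ⟨β, hβ⟩ => ⟨_, β, hβ, rfl⟩
    obtain ⟨β₀, hβ₀⟩ := h
    apply le_antisymm
    · rw [← div_le_iff₀' hx]
      refine le_csInf (hne ⟨β₀, hβ₀⟩) ?_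
      rintro y ⟨β, hβ, rfl⟩
      rw [div_le_iff₀' hx, Finset.mul_sum]
      refine (low_le z (fib_smul hβ hx.le)).trans (le_of_eq ?_)
      exact Finset.sum_congr rfl fun i _ => by ring
    · refine le_csInf (hne ⟨_, fib_smul hβ₀ hx.le⟩) ?_
      rintro y ⟨β, hβ, rfl⟩
      have h1 := fib_smul hβ (inv_nonneg.2 hx.le)
      have h2 : (fun j => x⁻¹ * (x * t j)) = t := by
        funext j
        rw [inv_mul_cancel_left₀ h0]
      rw [h2] at h1
      have h3 := mul_le_mul_of_nonneg_left (low_le z h1) hx.le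
      refine h3.trans (le_of_eq ?_)
      rw [Finset.mul_sum]
      refine Finset.sum_congr rfl fun i _ => ?_
      rw [mul_assoc, mul_inv_cancel_left₀ h0]

omit [Fintype J] in
/-- Additivity. -/
theorem low_add {T : Fin p → J → ℕ} (a : Fin p → ι → ℕ) (z : ι → ℕ) {t t' : J → ℝ}
    (h : (fib T a t).Nonempty) (h' : (fib T a t').Nonempty)
    (hadd : fib T a (fun j => t j + t' j) = {β | ∃ b ∈ fib T a t, ∃ b' ∈ fib T a t', β = b + b'}) :
    low T a z (fun j => t j + t' j) = low T a z t + low T a z t' := by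
  obtain ⟨β₀, hβ₀⟩ := h
  obtain ⟨β₁, hβ₁⟩ := h'
  have hsum : ∀ b b' : ι → ℝ, ∑ i, (b + b') i * (z i : ℝ) = ∑ i, b i * z i + ∑ i, b' i * z i := by
    intro b b'
    rw [← Finset.sum_add_distrib]
    exact Finset.sum_congr rfl fun i _ => by rw [Pi.add_apply, add_mul]
  apply le_antisymm
  · have h1 : low T a z (fun j => t j + t' j) - low T a z t ≤ low T a z t' := by
      refine le_csInf ⟨_, β₁, hβ₁, rfl⟩ ?_
      rintro y ⟨b', hb', rfl⟩
      have h2 : low T a z (fun j => t j + t' j) - ∑ i, b' i * (z i : ℝ) ≤ low T a z t := by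
        refine le_csInf ⟨_, β₀, hβ₀, rfl⟩ ?_
        rintro y ⟨b, hb, rfl⟩
        have h3 : b + b' ∈ fib T a fun j => t j + t' j := by
          rw [hadd]
          exact ⟨b, hb, b', hb', rfl⟩
        have h4 := low_le z h3
        rw [hsum] at h4
        linarith
      linarith
    linarith
  · have h1 : β₀ + β₁ ∈ fib T a fun j => t j + t' j := by
      rw [hadd]
      exact ⟨_, hβ₀, _, hβ₁, rfl⟩
    refine le_csInf ⟨_, _, h1, rfl⟩ ?_
    rintro y ⟨β, hβ, rfl⟩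
    rw [hadd] at hβ
    obtain ⟨b, hb, b', hb', rfl⟩ := hβ
    rw [hsum]
    exact add_le_add (low_le z hb) (low_le z hb')

/-- Extension of additive homogeneous functions on a convex cone. -/
theorem ext_lin {E : Type*} [AddCommGroup E] [Module ℝ E] {A : Set E} (h0 : (0 : E) ∈ A)
    (hadd : ∀ x ∈ A, ∀ y ∈ A, x + y ∈ A) (hsmul : ∀ c : ℝ, 0 ≤ c → ∀ x ∈ A, c • x ∈ A)
    (h : E → ℝ) (h1 : ∀ x ∈ A, ∀ y ∈ A, h (x + y) = h x + h y)
    (h2 : ∀ c : ℝ, 0 ≤ c → ∀ x ∈ A, h (c • x) = c * h x) :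
    ∃ l : E →ₗ[ℝ] ℝ, ∀ x ∈ A, l x = h x := by
  classical
  obtain ⟨b, hbA, hspan, hli'⟩ := exists_linearIndependent ℝ A
  have hli : LinearIndepOn ℝ id b := hli'
  have hh0 : h 0 = 0 := by
    have := h2 0 le_rfl 0 h0
    rwa [zero_smul, zero_mul] at this
  let B := Module.Basis.extend hli
  let l : E →ₗ[ℝ] ℝ := B.constr ℝ fun e => h (e : E)
  have hl : ∀ x ∈ b, l x = h x := by
    intro x hx
    have h3 : B ⟨x, Module.Basis.subset_extend hli hx⟩ = x :=
      Module.Basis.extend_apply_self hli _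
    have h4 := B.constr_basis ℝ (fun e => h (e : E)) ⟨x, Module.Basis.subset_extend hli hx⟩
    rw [h3] at h4
    exact h4
  refine ⟨l, fun x hx => ?_⟩
  have hx' : x ∈ Submodule.span ℝ b := by
    rw [hspan]
    exact Submodule.subset_span hx
  have key : ∀ x ∈ Submodule.span ℝ b, ∃ y ∈ A, ∃ z ∈ A, x = y - z ∧ l x = h y - h z := by
    intro x hx
    induction hx using Submodule.span_induction with
    | mem x hx => exact ⟨x, hbA hx, 0, h0, (sub_zero x).symm, by rw [hl x hx, hh0, sub_zero]⟩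
    | zero => exact ⟨0, h0, 0, h0, (sub_zero 0).symm, by rw [map_zero, sub_self]⟩
    | add x x' _ _ ih ih' =>
      obtain ⟨y, hy, z, hz, e1, e2⟩ := ih
      obtain ⟨y', hy', z', hz', e1', e2'⟩ := ih'
      refine ⟨y + y', hadd _ hy _ hy', z + z', hadd _ hz _ hz', ?_, ?_⟩
      · rw [e1, e1']
        abel
      · rw [map_add, e2, e2', h1 _ hy _ hy', h1 _ hz _ hz']
        ring
    | smul c x _ ih =>
      obtain ⟨y, hy, z, hz, e1, e2⟩ := ih
      rcases le_total 0 c with hc | hc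
      · refine ⟨c • y, hsmul c hc _ hy, c • z, hsmul c hc _ hz, ?_, ?_⟩
        · rw [e1, smul_sub]
        · rw [map_smul, e2, h2 c hc _ hy, h2 c hc _ hz, smul_eq_mul]
          ring
      · have hc' := neg_nonneg.2 hc
        refine ⟨(-c) • z, hsmul _ hc' _ hz, (-c) • y, hsmul _ hc' _ hy, ?_, ?_⟩
        · rw [e1, smul_sub, neg_smul, neg_smul]
          abel
        · rw [map_smul, e2, h2 _ hc' _ hy, h2 _ hc' _ hz, smul_eq_mul]
          ring
  obtain ⟨y, hy, z, hz, e1, e2⟩ := key x hx'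
  have h3 : x + z = y := by rw [e1, sub_add_cancel]
  have h4 := h1 x hx z hz
  rw [h3] at h4
  rw [e2, h4]
  ring

/-- The closed chamber of the sign vector `ε`. -/
def InChamber (W : Finset (J → ℤ)) (ε : W → SignType) (t : J → ℝ) : Prop :=
  ∀ w : W, SignType.sign (∑ j, (w.1 j : ℝ) * t j) = 0 ∨
    SignType.sign (∑ j, (w.1 j : ℝ) * t j) = ε w

/-- On a chamber the minimum is linear. -/
theorem low_linear {T : Fin p → J → ℕ} (hT : ∀ l, T l ≠ 0) (a : Fin p → ι → ℕ)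
    {W : Finset (J → ℤ)} (hW : ∀ t t' : J → ℝ,
      (∀ w ∈ W, 0 ≤ (∑ j, (w j : ℝ) * t j) * ∑ j, (w j : ℝ) * t' j) →
        fib T a (fun j => t j + t' j) = {β | ∃ b ∈ fib T a t, ∃ b' ∈ fib T a t', β = b + b'})
    (ε : W → SignType) (z : ι → ℕ) :
    ∃ σ : J → ℝ, ∀ t : J → ℝ, (fib T a t).Nonempty → InChamber W ε t →
      low T a z t = ∑ j, σ j * t j := by
  classical
  have hsign : ∀ {x y : ℝ} {e : SignType}, (SignType.sign x = 0 ∨ SignType.sign x = e) →
      (SignType.sign y = 0 ∨ SignType.sign y = e) → 0 ≤ x * y ∧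
        (SignType.sign (x + y) = 0 ∨ SignType.sign (x + y) = e) := by
    intro x y e hx hy
    rw [sign_eq_zero_iff] at hx hy
    rcases hx with rfl | hx
    · refine ⟨by simp, ?_⟩
      rw [zero_add]
      rcases hy with rfl | hy
      · exact Or.inl (by simp)
      · exact Or.inr hy
    · rcases hy with rfl | hy
      · refine ⟨by simp, ?_⟩
        rw [add_zero]
        exact Or.inr hx
      · rcases lt_trichotomy x 0 with h | h | h
        · rw [sign_neg h] at hx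
          rw [← hx, sign_eq_neg_one_iff] at hy
          refine ⟨(mul_pos_of_neg_of_neg h hy).le, Or.inr ?_⟩
          rw [← hx, sign_neg (add_neg h hy)]
        · subst h
          refine ⟨by simp, Or.inr ?_⟩
          rw [zero_add]
          exact hy
        · rw [sign_pos h] at hx
          rw [← hx, sign_eq_one_iff] at hy
          refine ⟨(mul_pos h hy).le, Or.inr ?_⟩
          rw [← hx, sign_pos (add_pos h hy)]
  have hlinadd : ∀ (w : J → ℤ) (t t' : J → ℝ), ∑ j, (w j : ℝ) * (t + t') j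
      = ∑ j, (w j : ℝ) * t j + ∑ j, (w j : ℝ) * t' j := by
    intro w t t'
    rw [← Finset.sum_add_distrib]
    exact Finset.sum_congr rfl fun j _ => by rw [Pi.add_apply, mul_add]
  have hlinsmul : ∀ (w : J → ℤ) (c : ℝ) (t : J → ℝ), ∑ j, (w j : ℝ) * (c • t) j
      = c * ∑ j, (w j : ℝ) * t j := by
    intro w c t
    rw [Finset.mul_sum]
    exact Finset.sum_congr rfl fun j _ => by rw [Pi.smul_apply, smul_eq_mul]; ring
  obtain ⟨l, hl⟩ := ext_lin (A := {t : J → ℝ | (fib T a t).Nonempty ∧ InChamber W ε t})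
    ⟨⟨0, by
      have h1 := fib_zero hT a
      have h2 : (0 : J → ℝ) = fun _ => 0 := rfl
      rw [h2, h1]
      rfl⟩, fun w => Or.inl (by simp)⟩
    (fun x hx y hy => by
      refine ⟨?_, fun w => ?_⟩
      · obtain ⟨b, hb⟩ := hx.1
        obtain ⟨b', hb'⟩ := hy.1
        refine ⟨b + b', ?_⟩
        have h1 := hW x y fun w hw => (hsign (hx.2 ⟨w, hw⟩) (hy.2 ⟨w, hw⟩)).1
        change b + b' ∈ fib T a fun j => x j + y j
        rw [h1]
        exact ⟨b, hb, b', hb', rfl⟩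
      · rw [hlinadd]
        exact (hsign (hx.2 w) (hy.2 w)).2)
    (fun c hc x hx => by
      refine ⟨?_, fun w => ?_⟩
      · obtain ⟨b, hb⟩ := hx.1
        exact ⟨_, fib_smul hb hc⟩
      · rw [hlinsmul]
        rcases hc.eq_or_lt with rfl | hc
        · exact Or.inl (by simp)
        · rw [sign_mul, sign_pos hc, one_mul]
          exact hx.2 w)
    (low T a z)
    (fun x hx y hy => low_add a z hx.1 hy.1 (hW x y fun w hw =>
      (hsign (hx.2 ⟨w, hw⟩) (hy.2 ⟨w, hw⟩)).1))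
    (fun c hc x hx => low_smul hT a z hc hx.1)
  refine ⟨fun j => l (Pi.single j 1), fun t ht hc => ?_⟩
  rw [← hl t ⟨ht, hc⟩, LinearMap.pi_apply_eq_sum_univ l t]
  refine Finset.sum_congr rfl fun j _ => ?_
  rw [smul_eq_mul, mul_comm]
  congr 2
  funext k
  rw [Pi.single_apply]
  simp only [eq_comm]

end Q47.FLIP
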