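import Pool.Agent.Q47.FLIP.Stm
import Pool.Agent.Q47.FLIP.LP

/-!
# Finiteness of models from the linear forms on the chambers
-/

set_option autoImplicit false

namespace Q47.FLIP

variable {J A : Type*} [Fintype J]

/-- The linear form. -/
theorem continuous_form (w : J → ℤ) : Continuous fun t : J → ℝ => ∑ j, (w j : ℝ) * t j := by
  fun_prop

/-- On an open set the signs are constant after shrinking. -/
theorem const_sign (W : Finset (J → ℤ)) {U : Set (J → ℝ)} (hU : IsOpen U) (hne : U.Nonempty) :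
    ∃ U' ⊆ U, IsOpen U' ∧ U'.Nonempty ∧ ∀ w ∈ W, ∃ e : SignType, ∀ t ∈ U',
      SignType.sign (∑ j, (w j : ℝ) * t j) = e := by
  classical
  induction W using Finset.induction_on with
  | empty => exact ⟨U, subset_rfl, hU, hne, by simp⟩
  | insert w W _ ih =>
    obtain ⟨U', hU', ho, hn, h⟩ := ih
    by_cases h1 : ∃ t ∈ U', ∑ j, (w j : ℝ) * t j ≠ 0
    · obtain ⟨t, ht, h2⟩ := h1
      rcases lt_or_gt_of_ne h2 with h3 | h3
      · refine ⟨U' ∩ {t | ∑ j, (w j : ℝ) * t j < 0}, fun x hx => hU' hx.1,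
          ho.inter (isOpen_lt (continuous_form w) continuous_const), ⟨t, ht, h3⟩, ?_⟩
        intro w' hw'
        rcases Finset.mem_insert.1 hw' with rfl | hw'
        · exact ⟨-1, fun x hx => sign_neg hx.2⟩
        · obtain ⟨e, he⟩ := h w' hw'
          exact ⟨e, fun x hx => he x hx.1⟩
      · refine ⟨U' ∩ {t | 0 < ∑ j, (w j : ℝ) * t j}, fun x hx => hU' hx.1,
          ho.inter (isOpen_lt continuous_const (continuous_form w)), ⟨t, ht, h3⟩, ?_⟩
        intro w' hw'
        rcases Finset.mem_insert.1 hw' with rfl | hw'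
        · exact ⟨1, fun x hx => sign_pos hx.2⟩
        · obtain ⟨e, he⟩ := h w' hw'
          exact ⟨e, fun x hx => he x hx.1⟩
    · push Not at h1
      refine ⟨U', hU', ho, hn, ?_⟩
      intro w' hw'
      rcases Finset.mem_insert.1 hw' with rfl | hw'
      · exact ⟨0, fun x hx => by rw [h1 x hx, sign_zero]⟩
      · exact h w' hw'

/-- Common denominators. -/
theorem clear_denom (q : J → ℚ) (hq : ∀ j, 0 ≤ q j) :
    ∃ N : ℕ, 1 ≤ N ∧ ∃ t : J → ℕ, ∀ j, (t j : ℚ) = N * q j := by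
  classical
  refine ⟨∏ j, (q j).den, Nat.succ_le_of_lt (Finset.prod_pos fun j _ => (q j).den_pos), ?_⟩
  have h1 : ∀ j, ∃ k : ℕ, (k : ℚ) = (∏ j, (q j).den : ℕ) * q j := by
    intro j
    obtain ⟨k, hk⟩ := Finset.dvd_prod_of_mem (fun j => (q j).den) (Finset.mem_univ j)
    have h2 : 0 ≤ (q j).num := Rat.num_nonneg.2 (hq j)
    obtain ⟨m, hm⟩ := Int.eq_ofNat_of_zero_le h2
    refine ⟨k * m, ?_⟩
    have h3 : ((q j).den : ℚ) * q j = (q j).num := by
      rw [mul_comm]
      exact Rat.mul_den_eq_num _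
    rw [hk]
    push_cast
    rw [mul_comm ((q j).den : ℚ) (k : ℚ), mul_assoc, h3, hm]
    push_cast
    rfl
  choose t ht using h1
  exact ⟨t, ht⟩

/-- A linear form which vanishes at the integral points of an open cone vanishes. -/
theorem form_zero {U : Set (J → ℝ)} (hU : IsOpen U) (hne : U.Nonempty) (hpos : ∀ t ∈ U, ∀ j, 0 < t j)
    {f : J → ℝ} (hf : ∀ t : J → ℕ, (∃ c : ℝ, 0 < c ∧ (fun j => c * (t j : ℝ)) ∈ U) →
      ∑ j, f j * t j = 0) : f = 0 := by
  classical
  have hrat : ∀ q : J → ℚ, (fun j => (q j : ℝ)) ∈ U → ∑ j, f j * (q j : ℝ) = 0 := by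
    intro q hq
    obtain ⟨N, hN, t, ht⟩ := clear_denom q fun j => by
      have := hpos _ hq j
      exact_mod_cast this.le
    have hN0 : (0 : ℝ) < N := by exact_mod_cast hN
    have ht' : ∀ j, (t j : ℝ) = N * (q j : ℝ) := fun j => by exact_mod_cast ht j
    have h1 := hf t ⟨(N : ℝ)⁻¹, inv_pos.2 hN0, by
      have h2 : (fun j => (N : ℝ)⁻¹ * (t j : ℝ)) = fun j => (q j : ℝ) := by
        funext j
        rw [ht' j, inv_mul_cancel_left₀ hN0.ne']
      rw [h2]
      exact hq⟩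
    have h3 : ∑ j, f j * (t j : ℝ) = N * ∑ j, f j * (q j : ℝ) := by
      rw [Finset.mul_sum]
      exact Finset.sum_congr rfl fun j _ => by rw [ht' j]; ring
    rw [h3] at h1
    exact (mul_eq_zero.1 h1).resolve_left hN0.ne'
  have hdense : Dense {t : J → ℝ | ∃ q : J → ℚ, (fun j => (q j : ℝ)) = t} := by
    have h1 : Dense (Set.pi Set.univ fun _ : J => Set.range (Rat.cast : ℚ → ℝ)) :=
      dense_pi Set.univ fun _ _ => Rat.denseRange_cast
    refine h1.mono fun t ht => ?_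
    choose q hq using fun j => ht j (Set.mem_univ j)
    exact ⟨q, funext hq⟩
  obtain ⟨t₀, ⟨q₀, rfl⟩, ht₀⟩ := hdense.exists_mem_open hU hne
  obtain ⟨ε, hε, hball⟩ := Metric.isOpen_iff.1 hU _ ht₀
  obtain ⟨δ, hδ0, hδ⟩ := exists_rat_btwn hε
  have hδ0' : (0 : ℝ) < δ := by exact_mod_cast hδ0
  funext j
  have h1 : (fun k => ((q₀ k + if k = j then δ else 0 : ℚ) : ℝ)) ∈ U := by
    apply hball
    rw [Metric.mem_ball, dist_pi_lt_iff hε]
    intro k
    rw [Real.dist_eq]
    push_cast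
    rw [add_sub_cancel_left]
    split_ifs
    · rw [abs_of_pos hδ0']
      exact hδ
    · rw [Rat.cast_zero, abs_zero]
      exact hε
  have h2 := hrat _ h1
  have h3 := hrat _ ht₀
  have h4 : ∑ k, f k * ((q₀ k + if k = j then δ else 0 : ℚ) : ℝ)
      = ∑ k, f k * (q₀ k : ℝ) + f j * δ := by
    push_cast
    simp only [mul_add, Finset.sum_add_distrib]
    congr 1
    rw [Finset.sum_eq_single j]
    · rw [if_pos rfl]
    · intro k _ hk
      rw [if_neg hk, Rat.cast_zero, mul_zero]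
    · simp
  rw [h4, h3, zero_add] at h2
  exact (mul_eq_zero.1 h2).resolve_right hδ0'.ne'

variable {order : A → (J → ℕ) → ℝ → Prop} {Psef : (J → ℝ) → Prop} {W : Finset (J → ℤ)}
  {σ : (W → SignType) → A → J → ℝ}

omit [Fintype J] in
/-- Chains. -/
theorem chain {Z : Type*} {X : Set Z} {B : ℕ} (hX : X.encard ≤ B) (val : Z → A → ℝ) {m : ℕ}
    (x : ℕ → Z) (hx : ∀ i ≤ m, x i ∈ X)
    (h : ∀ i < m, (∀ w, val (x i) w ≤ val (x (i + 1)) w) ∧ ∃ w, val (x i) w < val (x (i + 1)) w) :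
    m < B := by
  classical
  have hmono : ∀ i j, i ≤ j → j ≤ m → ∀ w, val (x i) w ≤ val (x j) w := by
    intro i j hij
    induction j, hij using Nat.le_induction with
    | base => exact fun _ w => le_rfl
    | succ j hij ih => exact fun hj w => (ih (by omega) w).trans ((h j (by omega)).1 w)
  have hinj : Set.InjOn x (Finset.range (m + 1)) := by
    intro i hi j hj hij
    rw [Finset.coe_range, Set.mem_Iio] at hi hj
    by_contra hne
    have key : ∀ i j, i < j → j ≤ m → x i ≠ x j := by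
      intro i j hij hj he
      obtain ⟨w, hw⟩ := (h i (by omega)).2
      have h1 := hmono (i + 1) j hij hj w
      rw [← he] at h1
      exact absurd hw (not_lt.2 h1)
    rcases lt_or_gt_of_ne hne with h1 | h1
    · exact key i j h1 (by omega) hij
    · exact key j i h1 (by omega) hij.symm
  have h1 : (x '' (Finset.range (m + 1) : Set ℕ)).encard = ((m + 1 : ℕ) : ℕ∞) := by
    rw [hinj.encard_image, Set.encard_coe_eq_coe_finsetCard, Finset.card_range]
  have h2 : x '' (Finset.range (m + 1) : Set ℕ) ⊆ X := by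
    rintro _ ⟨i, hi, rfl⟩
    rw [Finset.coe_range, Set.mem_Iio] at hi
    exact hx i (by omega)
  have h3 := (Set.encard_le_encard h2).trans hX
  rw [h1] at h3
  have h4 : m + 1 ≤ B := by exact_mod_cast h3
  omega

/-- Models over open sets. -/
theorem models (hσ : ∀ ε w (t : J → ℕ), Psef (fun j => (t j : ℝ)) →
      InChamber W ε (fun j => (t j : ℝ)) → order w t (∑ j, σ ε w j * t j))
    (huniq : ∀ w t o o', order w t o → order w t o' → o = o')
    (hpsef : ∀ w t o, order w t o → Psef (fun j => (t j : ℝ))) :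
    {x | IsModel order x} ⊆ Set.range σ := by
  rintro x ⟨U, hU, hne, hpos, hx⟩
  obtain ⟨U', hU', ho, hn, hs⟩ := const_sign W hU hne
  choose e he using fun w : W => hs w.1 w.2
  refine ⟨e, ?_⟩
  funext w
  have h1 := form_zero ho hn (fun t ht => hpos t (hU' ht)) (f := fun j => σ e w j - x w j) (by
    rintro t ⟨c, hc, hct⟩
    have h2 := hx t ⟨c, hc, hU' hct⟩ w
    have h3 : InChamber W e fun j => (t j : ℝ) := by
      intro w'
      right
      have h4 := he w' _ hct
      have h5 : ∑ j, (w'.1 j : ℝ) * (c * (t j : ℝ)) = c * ∑ j, (w'.1 j : ℝ) * (t j : ℝ) := by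
        rw [Finset.mul_sum]
        exact Finset.sum_congr rfl fun j _ => by ring
      rw [h5, sign_mul, sign_pos hc, one_mul] at h4
      exact h4
    have h4 := huniq w t _ _ (hσ e w t (hpsef w t _ h2) h3) h2
    simp only [sub_mul, Finset.sum_sub_distrib]
    rw [h4, sub_self])
  funext j
  have h2 := congrFun h1 j
  simp only [Pi.zero_apply] at h2
  linarith

/-- Existence of models over open sets. -/
theorem exists_model (hσ : ∀ ε w (t : J → ℕ), Psef (fun j => (t j : ℝ)) →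
      InChamber W ε (fun j => (t j : ℝ)) → order w t (∑ j, σ ε w j * t j))
    {U : Set (J → ℝ)} (hU : IsOpen U) (hne : U.Nonempty)
    (hp : ∀ t : J → ℕ, (∃ c : ℝ, 0 < c ∧ (fun j => c * (t j : ℝ)) ∈ U) →
      Psef fun j => (t j : ℝ)) :
    ∃ U' ⊆ U, IsOpen U' ∧ U'.Nonempty ∧ ∃ x : A → J → ℝ, IsModelOn order U' x := by
  obtain ⟨U', hU', ho, hn, hs⟩ := const_sign W hU hne
  choose e he using fun w : W => hs w.1 w.2
  refine ⟨U', hU', ho, hn, σ e, ?_⟩
  rintro t ⟨c, hc, hct⟩ w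
  refine hσ e w t (hp t ⟨c, hc, hU' hct⟩) fun w' => Or.inr ?_
  have h4 := he w' _ hct
  have h5 : ∑ j, (w'.1 j : ℝ) * (c * (t j : ℝ)) = c * ∑ j, (w'.1 j : ℝ) * (t j : ℝ) := by
    rw [Finset.mul_sum]
    exact Finset.sum_congr rfl fun j _ => by ring
  rw [h5, sign_mul, sign_pos hc, one_mul] at h4
  exact h4

/-- The number of sign vectors. -/
theorem card_range (W : Finset (J → ℤ)) {Z : Type*} (f : (W → SignType) → Z) :
    (Set.range f).encard ≤ ((3 ^ W.card : ℕ) : ℕ∞) := by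
  classical
  rw [← Set.image_univ]
  refine (Set.encard_image_le f _).trans ?_
  rw [Set.encard_univ, ENat.card_eq_coe_fintype_card, Fintype.card_fun, Fintype.card_coe]
  have h1 : Fintype.card SignType = 3 := rfl
  rw [h1]

/-- The interval on which the signs are constant. -/
theorem exists_small (W : Finset (J → ℤ)) (l κ : J → ℚ) {ε : ℚ} (hε : 0 < ε) :
    ∃ x₁ : ℚ, 0 < x₁ ∧ x₁ ≤ ε ∧ ∃ e : W → SignType, ∀ x : ℚ, 0 ≤ x → x ≤ x₁ →
      InChamber W e fun j => ((l j + x * κ j : ℚ) : ℝ) := by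
  classical
  let a : (J → ℤ) → ℚ := fun w => ∑ j, w j * l j
  let b : (J → ℤ) → ℚ := fun w => ∑ j, w j * κ j
  have hterm : ∀ w, 0 ≤ (|b w| + 1) / |a w| := fun w => div_nonneg (by positivity) (abs_nonneg _)
  obtain ⟨R, hR, hRw⟩ : ∃ R : ℚ, 0 < R + 1 ∧ ∀ w ∈ W, (|b w| + 1) / |a w| ≤ R := by
    refine ⟨∑ w ∈ W, (|b w| + 1) / |a w|, ?_, fun w hw =>
      Finset.single_le_sum (f := fun w => (|b w| + 1) / |a w|) (fun w _ => hterm w) hw⟩
    have : 0 ≤ ∑ w ∈ W, (|b w| + 1) / |a w| := Finset.sum_nonneg fun w _ => hterm w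
    linarith
  have hval : ∀ (w : J → ℤ) (x : ℚ), ∑ j, (w j : ℝ) * ((l j + x * κ j : ℚ) : ℝ)
      = ((a w + x * b w : ℚ) : ℝ) := by
    intro w x
    simp only [a, b]
    push_cast
    rw [Finset.mul_sum, ← Finset.sum_add_distrib]
    exact Finset.sum_congr rfl fun j _ => by ring
  have hsc : ∀ q : ℚ, SignType.sign (q : ℝ) = SignType.sign q := by
    intro q
    rcases lt_trichotomy q 0 with h | h | h
    · rw [sign_neg h, sign_neg (by exact_mod_cast h)]
    · subst h
      simp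
    · rw [sign_pos h, sign_pos (by exact_mod_cast h)]
  refine ⟨min ε (1 / (R + 1)), lt_min hε (one_div_pos.2 hR), min_le_left _ _,
    fun w => if a w.1 = 0 then SignType.sign (b w.1) else SignType.sign (a w.1),
    fun x hx0 hx1 w => ?_⟩
  rw [hval, hsc]
  beta_reduce
  by_cases ha : a w.1 = 0
  · rw [if_pos ha, ha, zero_add, sign_mul]
    rcases hx0.eq_or_lt with rfl | hx0
    · left
      simp
    · right
      rw [sign_pos hx0, one_mul]
  · rw [if_neg ha]
    right
    have h1 := hRw w.1 w.2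
    have ha' : 0 < |a w.1| := abs_pos.2 ha
    have h2 : |b w.1| + 1 ≤ R * |a w.1| := (div_le_iff₀ ha').1 h1
    have h3 : x * (R + 1) ≤ 1 := by
      exact (le_div_iff₀ hR).1 (hx1.trans (min_le_right _ _))
    have h5 : |x * b w.1| < |a w.1| := by
      rw [abs_mul, abs_of_nonneg hx0]
      have h6 : x * (|b w.1| + 1) ≤ x * (R * |a w.1|) := mul_le_mul_of_nonneg_left h2 hx0
      have h7 : x * (R + 1) * |a w.1| ≤ 1 * |a w.1| := mul_le_mul_of_nonneg_right h3 ha'.le
      rcases hx0.eq_or_lt with h0 | h0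
      · rw [← h0, zero_mul]
        exact ha'
      · nlinarith [mul_pos h0 ha']
    rcases lt_or_gt_of_ne ha with h | h
    · rw [sign_neg h]
      rw [abs_of_neg h] at h5
      have := (abs_lt.1 h5).2
      exact sign_neg (by linarith)
    · rw [sign_pos h]
      rw [abs_of_pos h] at h5
      have := (abs_lt.1 h5).1
      exact sign_pos (by linarith)

/-- Chambers are cones. -/
theorem InChamber.smul {e : W → SignType} {t : J → ℝ} (h : InChamber W e t) {N : ℕ} (hN : 1 ≤ N)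
    {t' : J → ℝ} (ht : ∀ j, t' j = N * t j) : InChamber W e t' := by
  intro w
  have hN0 : (0 : ℝ) < N := by exact_mod_cast hN
  have h5 : ∑ j, (w.1 j : ℝ) * t' j = N * ∑ j, (w.1 j : ℝ) * t j := by
    rw [Finset.mul_sum]
    exact Finset.sum_congr rfl fun j _ => by rw [ht]; ring
  rw [h5, sign_mul, sign_pos hN0, one_mul]
  exact h w

/-- Models in the direction `κ`. -/
theorem models_at (hσ : ∀ ε w (t : J → ℕ), Psef (fun j => (t j : ℝ)) →
      InChamber W ε (fun j => (t j : ℝ)) → order w t (∑ j, σ ε w j * t j))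
    (huniq : ∀ w t o o', order w t o → order w t o' → o = o')
    (hpsef : ∀ w t o, order w t o → Psef (fun j => (t j : ℝ))) (κ : J → ℚ) :
    {y | ∃ l, IsModelAt order κ l y} ⊆ Set.range fun ε w => ∑ j, σ ε w j * κ j := by
  rintro y ⟨l, α, ε, hε, hpos, hy⟩
  obtain ⟨x₁, hx₁, hx₁ε, e, he⟩ := exists_small W l κ hε
  refine ⟨e, ?_⟩
  funext w
  -- the value at the points of the interval
  have key : ∀ x : ℚ, 0 ≤ x → x ≤ x₁ → α w + x * y w = ∑ j, σ e w j * ((l j + x * κ j : ℚ) : ℝ) := by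
    intro x hx0 hx1
    have hq : ∀ j, 0 ≤ l j + x * κ j := by
      intro j
      obtain ⟨h1, h2⟩ := hpos j
      by_cases hk : 0 ≤ κ j
      · positivity
      · push Not at hk
        have h3 : ε * κ j ≤ x * κ j := mul_le_mul_of_nonpos_right (hx1.trans hx₁ε) hk.le
        linarith
    obtain ⟨N, hN, t, ht⟩ := clear_denom (fun j => l j + x * κ j) hq
    have hN0 : (0 : ℝ) < N := by exact_mod_cast hN
    have h1 := hy x hx0 (hx1.trans hx₁ε) N t hN ht w
    have ht' : ∀ j, (t j : ℝ) = N * ((l j + x * κ j : ℚ) : ℝ) := fun j => by exact_mod_cast ht j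
    have h2 := huniq w t _ _ (hσ e w t (hpsef w t _ h1) ((he x hx0 hx1).smul hN ht')) h1
    have h3 : ∑ j, σ e w j * (t j : ℝ) = N * ∑ j, σ e w j * ((l j + x * κ j : ℚ) : ℝ) := by
      rw [Finset.mul_sum]
      exact Finset.sum_congr rfl fun j _ => by rw [ht' j]; ring
    rw [h3] at h2
    exact (mul_left_cancel₀ hN0.ne' h2).symm
  have h0 := key 0 le_rfl hx₁.le
  have h1 := key x₁ hx₁.le le_rfl
  have h2 : ∑ j, σ e w j * ((l j + x₁ * κ j : ℚ) : ℝ)
      = ∑ j, σ e w j * ((l j + 0 * κ j : ℚ) : ℝ) + x₁ * ∑ j, σ e w j * (κ j : ℝ) := by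
    rw [Finset.mul_sum, ← Finset.sum_add_distrib]
    refine Finset.sum_congr rfl fun j _ => ?_
    push_cast
    ring
  rw [h2, ← h0] at h1
  push_cast at h1
  have hx : (x₁ : ℝ) ≠ 0 := by exact_mod_cast hx₁.ne'
  have h3 : (x₁ : ℝ) * y w = x₁ * ∑ j, σ e w j * (κ j : ℝ) := by linarith
  exact (mul_left_cancel₀ hx h3).symm

/-- Existence of models in the direction `κ`. -/
theorem exists_model_at (hσ : ∀ ε w (t : J → ℕ), Psef (fun j => (t j : ℝ)) →
      InChamber W ε (fun j => (t j : ℝ)) → order w t (∑ j, σ ε w j * t j))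
    (κ l : J → ℚ) {ε : ℚ} (hε : 0 < ε) (hpos : ∀ j, 0 ≤ l j ∧ 0 ≤ l j + ε * κ j)
    (hp : ∀ x : ℚ, 0 ≤ x → x ≤ ε → ∀ (N : ℕ) (t : J → ℕ), 1 ≤ N →
      (∀ j, (t j : ℚ) = N * (l j + x * κ j)) → Psef fun j => (t j : ℝ)) :
    ∃ y : A → ℝ, IsModelAt order κ l y := by
  obtain ⟨x₁, hx₁, hx₁ε, e, he⟩ := exists_small W l κ hε
  refine ⟨fun w => ∑ j, σ e w j * κ j, fun w => ∑ j, σ e w j * l j, x₁, hx₁, fun j =>
    ⟨(hpos j).1, ?_⟩, fun x hx0 hx1 N t hN ht w => ?_⟩
  · obtain ⟨h1, h2⟩ := hpos j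
    by_cases hk : 0 ≤ κ j
    · positivity
    · push Not at hk
      have h3 : ε * κ j ≤ x₁ * κ j := mul_le_mul_of_nonpos_right hx₁ε hk.le
      linarith
  · have ht' : ∀ j, (t j : ℝ) = N * ((l j + x * κ j : ℚ) : ℝ) := fun j => by exact_mod_cast ht j
    have h1 := hσ e w t (hp x hx0 (hx1.trans hx₁ε) N t hN ht) ((he x hx0 hx1).smul hN ht')
    have h3 : ∑ j, σ e w j * (t j : ℝ)
        = N * ((∑ j, σ e w j * (l j : ℝ)) + x * ∑ j, σ e w j * (κ j : ℝ)) := by
      rw [Finset.mul_sum, ← Finset.sum_add_distrib, Finset.mul_sum]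
      refine Finset.sum_congr rfl fun j _ => ?_
      rw [ht' j]
      push_cast
      ring
    rw [h3] at h1
    exact h1

end Q47.FLIP
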