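import Pool.Agent.Q47.FLIP.Stm
import Pool.Agent.Q47.FLIP.LP
import Pool.Agent.Q47.GEO.Final

/-!
# The asymptotic orders of vanishing of several adjoint divisors on a toric bundle
-/

set_option autoImplicit false

namespace Q47.FLIP

open Pool.Agent.W594.SYZ2 Pool.Agent.TH735.AQ Q47.TB MvPolynomial Q47.GEO

variable {V : Type*} [NormedAddCommGroup V] [NormedSpace ℂ V] {Γ : Subgroup (V ≃ᵃ[ℂ] V)}
  {ι : Type*} [Fintype ι] {n s : ℕ} {S : Set (Set ι)}

/-- Uniqueness. -/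
theorem order_unique {r : ι → Fin n → ℤ} {c : ι → LineBundle Γ} {D : Fin (s + 1) → ι → ℤ}
    {L : Fin (s + 1) → LineBundle Γ} {w : Valn V S} {t : Fin (s + 1) → ℕ} {o o' : ℝ}
    (h : IsAsymptoticOrder r c D L w t o) (h' : IsAsymptoticOrder r c D L w t o') : o = o' := by
  have key : ∀ {o o' : ℝ}, IsAsymptoticOrder r c D L w t o → IsAsymptoticOrder r c D L w t o' →
      o ≤ o' := by
    intro o o' h h'
    obtain ⟨k, hk, G, hG, hG0, ho⟩ := h'.attained
    have h1 := h.le k G hG hG0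
    rw [ho] at h1
    exact le_of_mul_le_mul_left h1 (by exact_mod_cast hk)
  exact le_antisymm (key h h') (key h' h)

/-- What is known about the semigroup. -/
structure Data (r : ι → Fin n → ℤ) (S : Set (Set ι)) (c : ι → LineBundle Γ)
    (D : Fin (s + 1) → ι → ℤ) (L : Fin (s + 1) → LineBundle Γ) (H : Fin (s + 1) → V → V → ℂ)
    (Hc : ι → V → V → ℂ) (p : ℕ) (T : Fin p → Fin (s + 1) → ℕ) (a : Fin p → ι → ℕ) : Prop where
  fan : IsSmoothFan r S
  ne : ∀ l, T l ≠ 0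
  mem : ∀ l, (T l, a l) ∈ Q r D H Hc
  gen : ∀ t α, (t, α) ∈ Q r D H Hc →
    ∃ μ : Fin p → ℕ, (∀ j, t j = ∑ l, μ l * T l j) ∧ ∀ i, α i = ∑ l, μ l * a l i
  secs : ∃ N : ℕ, 1 ≤ N ∧ ∀ t α, (t, α) ∈ Q r D H Hc → ∀ v₀, ∃ f : V → ℂ, f v₀ ≠ 0 ∧
    IsSection r c (fun i => N * ∑ j, (t j : ℤ) * D j i)
      (fun γ v => (∏ j, (L j).e γ v ^ t j) ^ N)
      fun v => monomial (Finsupp.equivFunOnFinite.symm fun i => N * α i) (f v)
  mono : ∀ (t : Fin (s + 1) → ℕ) (G : V → MvPolynomial ι ℂ), IsSectionOf r c D L t G →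
    ∀ v (α : ι →₀ ℕ), coeff α (G v) ≠ 0 → (t, (α : ι → ℕ)) ∈ Q r D H Hc
  near : ∀ (A : LineBundle Γ) (HA : V → V → ℂ), IsChernForm A HA → ∀ b : ι → ℤ,
    ∃ W : Finset ((Fin (s + 1) → ℤ) × (ι → ℤ)),
      ∀ (t : Fin (s + 1) → ℕ) (G : V → MvPolynomial ι ℂ),
        IsSection r c (fun i => ∑ j, (t j : ℤ) * D j i + b i)
          (fun γ v => (∏ j, (L j).e γ v ^ t j) * A.e γ v) G → ∀ v α, coeff α (G v) ≠ 0 →
            ∃ w ∈ W, ∃ μ : Fin p → ℕ, (∀ j, (t j : ℤ) = ∑ l, (μ l : ℤ) * T l j + w.1 j) ∧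
              ∀ i, (α i : ℤ) = ∑ l, (μ l : ℤ) * a l i + w.2 i

variable {r : ι → Fin n → ℤ} {c : ι → LineBundle Γ} {D : Fin (s + 1) → ι → ℤ}
  {L : Fin (s + 1) → LineBundle Γ} {H : Fin (s + 1) → V → V → ℂ} {Hc : ι → V → V → ℂ} {p : ℕ}
  {T : Fin p → Fin (s + 1) → ℕ} {a : Fin p → ι → ℕ}

/-- Divisors with sections. -/
theorem Data.fib_of_section (h : Data r S c D L H Hc p T a) {t : Fin (s + 1) → ℕ} {k : ℕ}
    (hk : 1 ≤ k) {G : V → MvPolynomial ι ℂ} (hG : IsSectionOf r c D L (fun j => k * t j) G)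
    (hG0 : G ≠ 0) : (fib T a fun j => (t j : ℝ)).Nonempty := by
  have h1 : ∃ v, G v ≠ 0 := by
    by_contra h0
    push Not at h0
    exact hG0 (funext h0)
  obtain ⟨v, hv⟩ := h1
  obtain ⟨α, hα⟩ := MvPolynomial.support_nonempty.2 hv
  obtain ⟨μ, hμ, -⟩ := h.gen _ _ (h.mono _ G hG v α (mem_support_iff.1 hα))
  have hk0 : (0 : ℝ) < k := by exact_mod_cast hk
  have h2 : (fun i => ∑ l, (μ l : ℝ) * (a l i : ℝ)) ∈ fib T a fun j => (k : ℝ) * t j :=
    ⟨fun l => μ l, fun l => Nat.cast_nonneg _, fun j => by beta_reduce; exact_mod_cast hμ j,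
      fun i => rfl⟩
  have h3 := fib_smul h2 (inv_nonneg.2 hk0.le)
  have h4 : (fun j => (k : ℝ)⁻¹ * ((k : ℝ) * t j)) = fun j => (t j : ℝ) :=
    funext fun j => inv_mul_cancel_left₀ hk0.ne' _
  rw [h4] at h3
  exact ⟨_, h3⟩

theorem Data.fib_of_order (h : Data r S c D L H Hc p T a) {w : Valn V S} {t : Fin (s + 1) → ℕ}
    {o : ℝ} (ho : IsAsymptoticOrder r c D L w t o) : (fib T a fun j => (t j : ℝ)).Nonempty := by
  obtain ⟨k, hk, G, hG, hG0, -⟩ := ho.attained
  exact h.fib_of_section hk hG hG0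

/-- The asymptotic orders. -/
theorem Data.order (h : Data r S c D L H Hc p T a) (w : Valn V S) {t : Fin (s + 1) → ℕ}
    (ht : (fib T a fun j => (t j : ℝ)).Nonempty) :
    IsAsymptoticOrder r c D L w t (low T a w.wt fun j => (t j : ℝ)) := by
  classical
  have hk : ∀ k : ℕ, low T a w.wt (fun j => ((k * t j : ℕ) : ℝ))
      = k * low T a w.wt fun j => (t j : ℝ) := by
    intro k
    rw [← low_smul h.ne a w.wt (Nat.cast_nonneg k) ht]
    congr 1
    funext j
    push_cast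
    rfl
  refine ⟨fun k G hG hG0 => ?_, fun M HM hM b => ?_, ?_⟩
  · have h1 : ⌈(k : ℝ) * low T a w.wt fun j => (t j : ℝ)⌉₊ ≤ w.ord G := by
      refine w.ord_section h.fan hG hG0 fun v α hα => Nat.ceil_le.2 ?_
      obtain ⟨μ, hμ1, hμ2⟩ := h.gen _ _ (h.mono _ G hG v α hα)
      have h2 : (fun i => (α i : ℝ)) ∈ fib T a fun j => ((k * t j : ℕ) : ℝ) :=
        ⟨fun l => μ l, fun l => Nat.cast_nonneg _, fun j => by beta_reduce; exact_mod_cast hμ1 j,
          fun i => by beta_reduce; exact_mod_cast hμ2 i⟩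
      have h3 := low_le w.wt h2
      rw [hk] at h3
      exact_mod_cast h3
    exact (Nat.le_ceil _).trans (by exact_mod_cast h1)
  · obtain ⟨W, hW⟩ := h.near M HM hM b
    choose C hC using fun x : (Fin (s + 1) → ℤ) × (ι → ℤ) => low_near a w.wt t hk x.1
    let C' : ((Fin (s + 1) → ℤ) × (ι → ℤ)) → ℕ := fun x => C x + ∑ i, (x.2 i).natAbs * w.wt i
    refine ⟨∑ x ∈ W, C' x, fun k G hG hG0 => ?_⟩
    have h1 : ⌈(k : ℝ) * (low T a w.wt fun j => (t j : ℝ)) - ((∑ x ∈ W, C' x : ℕ) : ℝ)⌉₊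
        ≤ w.ord G := by
      refine w.ord_section h.fan hG hG0 fun v α hα => Nat.ceil_le.2 ?_
      obtain ⟨x, hx, μ, h2, h3⟩ := hW _ G hG v α hα
      have h4 := hC x k μ h2
      have h5 : C' x ≤ ∑ x ∈ W, C' x :=
        Finset.single_le_sum (f := C') (fun _ _ => Nat.zero_le _) hx
      have h6 : ((∑ i, α i * w.wt i : ℕ) : ℝ) = ((∑ l, μ l * ∑ i, a l i * w.wt i : ℕ) : ℝ)
          + ∑ i, (x.2 i : ℝ) * w.wt i := by
        have h7 : ((∑ i, α i * w.wt i : ℕ) : ℤ) = ((∑ l, μ l * ∑ i, a l i * w.wt i : ℕ) : ℤ)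
            + ∑ i, x.2 i * w.wt i := by
          push_cast
          simp only [h3, add_mul, Finset.sum_add_distrib, Finset.sum_mul, Finset.mul_sum]
          congr 1
          rw [Finset.sum_comm]
          exact Finset.sum_congr rfl fun l _ => Finset.sum_congr rfl fun i _ => by ring
        exact_mod_cast h7
      have h8 : -((∑ i, (x.2 i).natAbs * w.wt i : ℕ) : ℝ) ≤ ∑ i, (x.2 i : ℝ) * w.wt i := by
        push_cast
        rw [← Finset.sum_neg_distrib]
        refine Finset.sum_le_sum fun i _ => ?_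
        rw [← neg_mul]
        refine mul_le_mul_of_nonneg_right ?_ (Nat.cast_nonneg _)
        rw [Nat.cast_natAbs, Int.cast_abs]
        exact neg_abs_le _
      have h9 : ((C' x : ℕ) : ℝ) ≤ ((∑ x ∈ W, C' x : ℕ) : ℝ) := by exact_mod_cast h5
      have h10 : ((C' x : ℕ) : ℝ) = C x + ((∑ i, (x.2 i).natAbs * w.wt i : ℕ) : ℝ) := by
        simp only [C']
        push_cast
        rfl
      rw [h6]
      linarith
    have h2 : (k : ℝ) * (low T a w.wt fun j => (t j : ℝ)) - ((∑ x ∈ W, C' x : ℕ) : ℝ) ≤ w.ord G :=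
      (Nat.le_ceil _).trans (by exact_mod_cast h1)
    linarith
  · obtain ⟨K, hK, ν, hν1, hν2⟩ := exists_min h.ne a w.wt ht
    obtain ⟨N, hN, hs⟩ := h.secs
    obtain ⟨f, hf, hG⟩ := hs (fun j => K * t j) (fun i => ∑ l, ν l * a l i) (by
      have h1 := mem_Q_comb h.mem ν
      have h2 : (fun j => K * t j) = fun j => ∑ l, ν l * T l j := funext hν1
      rw [h2]
      exact h1) w.v₁
    have hfd : Differentiable ℂ f := by
      have h1 := hG.holo (Finsupp.equivFunOnFinite.symm fun i => N * ∑ l, ν l * a l i)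
      simpa only [coeff_monomial, if_true] using h1
    have hf0 : f ≠ 0 := fun h0 => hf (congrFun h0 w.v₁)
    refine ⟨N * K, Nat.mul_pos hN hK, _, (?_ : IsSectionOf r c D L _ fun v =>
      monomial (Finsupp.equivFunOnFinite.symm fun i => N * ∑ l, ν l * a l i) (f v)), ?_, ?_⟩
    · have e1 : (fun i => ∑ j, ((N * K * t j : ℕ) : ℤ) * D j i)
          = fun i => (N : ℤ) * ∑ j, ((K * t j : ℕ) : ℤ) * D j i := by
        funext i
        rw [Finset.mul_sum]
        refine Finset.sum_congr rfl fun j _ => ?_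
        push_cast
        ring
      have e2 : (fun (γ : Γ) (v : V) => ∏ j, (L j).e γ v ^ (N * K * t j))
          = fun γ v => (∏ j, (L j).e γ v ^ (K * t j)) ^ N := by
        funext γ v
        rw [← Finset.prod_pow]
        refine Finset.prod_congr rfl fun j _ => ?_
        rw [← pow_mul]
        congr 1
        ring
      rw [IsSectionOf, e1, e2]
      exact hG
    · intro h0
      apply hf
      have h1 := congrFun h0 w.v₁
      simpa using h1
    · rw [w.ord_monomial _ hfd hf0, w.unit (fun v => C (f v)) (entire_monomial 0 hfd) (by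
        rw [eval_C]
        exact hf), zero_add]
      simp only [Finsupp.equivFunOnFinite_symm_apply_apply]
      have h1 : (∑ i, N * (∑ l, ν l * a l i) * w.wt i)
          = N * ∑ l, ν l * ∑ i, a l i * w.wt i := by
        simp only [Finset.sum_mul, Finset.mul_sum]
        rw [Finset.sum_comm]
        exact Finset.sum_congr rfl fun l _ => Finset.sum_congr rfl fun i _ => by ring
      rw [h1, Nat.cast_mul, hν2]
      push_cast
      ring

/-- The linear forms which give the asymptotic orders on the chambers. -/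
theorem Data.linear (h : Data r S c D L H Hc p T a) :
    ∃ (W : Finset (Fin (s + 1) → ℤ)) (σ : (W → SignType) → Valn V S → Fin (s + 1) → ℝ),
      ∀ (ε : W → SignType) (w : Valn V S) (t : Fin (s + 1) → ℕ),
        (fib T a fun j => (t j : ℝ)).Nonempty → InChamber W ε (fun j => (t j : ℝ)) →
          IsAsymptoticOrder r c D L w t (∑ j, σ ε w j * t j) := by
  classical
  obtain ⟨W, hW⟩ := chambers T h.ne a
  choose σ hσ using fun (ε : W → SignType) (w : Valn V S) => low_linear h.ne a hW ε w.wt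
  refine ⟨W, σ, fun ε w t ht hc => ?_⟩
  rw [← hσ ε w _ ht hc]
  exact h.order w ht

variable [FiniteDimensional ℂ V]

/-- The data exist. -/
theorem exists_data (hΓ : IsTorusQuotient Γ) {ρ : V → ℂ} (hρ : IsRamification Γ ρ)
    (hS : IsSmoothFan r S) (hs : 1 ≤ s) (hc : ∀ i, IsChernForm (c i) (Hc i))
    {m : ℕ} (hm : 1 ≤ m) {d : Fin (s + 1) → ι → ℤ} {F : Fin (s + 1) → V → MvPolynomial ι ℂ}
    (hL : ∀ j, IsChernForm (L j) (H j))
    (hF : ∀ j, TB.IsLogPluricanonical r c m ρ (d j) (F j) (L j))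
    {v₀ : Fin (s + 1) → V} (hlc : ∀ j, IsLogCanonical S m (F j (v₀ j)))
    (hD : D = fun j i => d j i - m) :
    ∃ (p : ℕ) (T : Fin p → Fin (s + 1) → ℕ) (a : Fin p → ι → ℕ),
      Data r S c D L H Hc p T a := by
  obtain ⟨p, T, a, h1, h2, -, h4, h5⟩ := geo hΓ hρ hS hs hc hL hF
    (fun j => (F j (v₀ j)).support) (fun j _ hα => ⟨v₀ j, mem_support_iff.1 hα⟩)
    (fun j => weights_of_lc hm (hlc j)) hD
  exact ⟨p, T, a, hS, fun l => (h1 l).1, fun l => (h1 l).2, h2, h4,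
    fun t G hG v α hα => mem_Q hΓ hc hL hG hα, h5⟩

end Q47.FLIP
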