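import Pool.Agent.Q47.FLIP.Val

/-!
# Asymptotic orders of vanishing and models
-/

set_option autoImplicit false

namespace Q47.FLIP

open Pool.Agent.W594.SYZ2 Pool.Agent.TH735.AQ Q47.TB MvPolynomial

variable {V : Type*} [NormedAddCommGroup V] [NormedSpace ℂ V] {Γ : Subgroup (V ≃ᵃ[ℂ] V)}
  {ι : Type*} [Fintype ι] {n s : ℕ}

/-- `G` is a section of the line bundle `D(t) = ∑ t_j D_j` on `Y`, where `D_j = O_Y(D j; L j)`. -/
def IsSectionOf (r : ι → Fin n → ℤ) (c : ι → LineBundle Γ) (D : Fin (s + 1) → ι → ℤ)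
    (L : Fin (s + 1) → LineBundle Γ) (t : Fin (s + 1) → ℕ) (G : V → MvPolynomial ι ℂ) : Prop :=
  IsSection r c (fun i => ∑ j, (t j : ℤ) * D j i) (fun γ v => ∏ j, (L j).e γ v ^ t j) G

/-- `o` is the asymptotic order of vanishing of `D(t)` at the valuation `w`: the order of all nonzero
sections of `k D(t)` is at least `k o`, with equality for some `k ≥ 1` and some section, and for each
line bundle `A = O_Y(b; M)` the order of all nonzero sections of `k D(t) + A` is at least `k o - C`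
for a number `C`. -/
structure IsAsymptoticOrder (r : ι → Fin n → ℤ) {S : Set (Set ι)} (c : ι → LineBundle Γ)
    (D : Fin (s + 1) → ι → ℤ) (L : Fin (s + 1) → LineBundle Γ) (w : Valn V S)
    (t : Fin (s + 1) → ℕ) (o : ℝ) : Prop where
  le : ∀ (k : ℕ) (G : V → MvPolynomial ι ℂ), IsSectionOf r c D L (fun j => k * t j) G → G ≠ 0 →
    k * o ≤ w.ord G
  near : ∀ (M : LineBundle Γ) (HM : V → V → ℂ), IsChernForm M HM → ∀ b : ι → ℤ, ∃ C : ℕ,
    ∀ (k : ℕ) (G : V → MvPolynomial ι ℂ),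
      IsSection r c (fun i => ∑ j, ((k * t j : ℕ) : ℤ) * D j i + b i)
        (fun γ v => (∏ j, (L j).e γ v ^ (k * t j)) * M.e γ v) G → G ≠ 0 →
          k * o ≤ w.ord G + C
  attained : ∃ k : ℕ, 1 ≤ k ∧ ∃ G : V → MvPolynomial ι ℂ,
    IsSectionOf r c D L (fun j => k * t j) G ∧ G ≠ 0 ∧ (w.ord G : ℝ) = k * o

variable {J A : Type*} [Fintype J]

/-- For all integral `t` in the cone over `U` and all `w` the order of `D(t)` at `w` is the value at
`t` of the linear form with the coefficients `x w`. (Here `order w t o` says that the order of `D(t)`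
at `w` is `o`.) -/
def IsModelOn (order : A → (J → ℕ) → ℝ → Prop) (U : Set (J → ℝ)) (x : A → J → ℝ) : Prop :=
  ∀ t : J → ℕ, (∃ c : ℝ, 0 < c ∧ (fun j => c * (t j : ℝ)) ∈ U) → ∀ w, order w t (∑ j, x w j * t j)

/-- The linear forms `x w` give the orders over some nonempty open set of positive vectors. -/
def IsModel (order : A → (J → ℕ) → ℝ → Prop) (x : A → J → ℝ) : Prop :=
  ∃ U : Set (J → ℝ), IsOpen U ∧ U.Nonempty ∧ (∀ t ∈ U, ∀ j, 0 < t j) ∧ IsModelOn order U x

/-- For all rational `x` in an interval `[0, ε]`, `ε > 0`, the order of `D(l + x κ)` at `w` is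
`α w + x y w` (stated for the integral multiples). -/
def IsModelAt (order : A → (J → ℕ) → ℝ → Prop) (κ l : J → ℚ) (y : A → ℝ) : Prop :=
  ∃ (α : A → ℝ) (ε : ℚ), 0 < ε ∧ (∀ j, 0 ≤ l j ∧ 0 ≤ l j + ε * κ j) ∧
    ∀ x : ℚ, 0 ≤ x → x ≤ ε → ∀ (N : ℕ) (t : J → ℕ), 1 ≤ N →
      (∀ j, (t j : ℚ) = N * (l j + x * κ j)) → ∀ w, order w t (N * (α w + x * y w))

end Q47.FLIP
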