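import Pool.Agent.Q47.TB.Snc

/-!
# Discrete valuations centred on a toric bundle
-/

set_option autoImplicit false

namespace Q47.FLIP

open Pool.Agent.W594.SYZ2 Pool.Agent.TH735.AQ Q47.TB MvPolynomial

variable {V : Type*} [NormedAddCommGroup V] [NormedSpace ℂ V] {ι : Type*} [Fintype ι]

/-- `F` is a function `F(v, x)` on `V × ℂ^ι`, polynomial in `x`, with entire coefficients. -/
def Entire (F : V → MvPolynomial ι ℂ) : Prop := ∀ α, Differentiable ℂ fun v => coeff α (F v)

/-- A discrete valuation of the ring of the functions `F(v, x)` on `V × ℂ^ι` which are polynomial in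
`x` and entire in `v`, centred on the set of the `(v, x)` such that `{i | x_i = 0}` is a cone. The
orders of vanishing along the prime divisors over the toric bundle `Y → X` are such valuations. -/
structure Valn (V : Type*) [NormedAddCommGroup V] [NormedSpace ℂ V] {ι : Type*} [Fintype ι]
    (S : Set (Set ι)) where
  /-- the order of vanishing -/
  ord : (V → MvPolynomial ι ℂ) → ℕ
  /-- a point of the centre -/
  v₁ : V
  /-- a point of the centre -/
  x₁ : ι → ℂ
  mem : {i | x₁ i = 0} ∈ S
  unit : ∀ F, Entire F → eval x₁ (F v₁) ≠ 0 → ord F = 0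
  mul : ∀ F G, Entire F → Entire G → F ≠ 0 → G ≠ 0 → ord (fun v => F v * G v) = ord F + ord G
  add : ∀ F G, Entire F → Entire G → F ≠ 0 → G ≠ 0 → (fun v => F v + G v) ≠ 0 →
    min (ord F) (ord G) ≤ ord fun v => F v + G v

variable {S : Set (Set ι)}

/-- The orders of the coordinates. -/
noncomputable def Valn.wt (w : Valn V S) (i : ι) : ℕ := w.ord fun _ => X i

omit [Fintype ι] in
theorem entire_zero : Entire (V := V) (ι := ι) (0 : V → MvPolynomial ι ℂ) := fun _ => by
  simp only [Pi.zero_apply, coeff_zero]
  exact differentiable_const _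

omit [Fintype ι] in
theorem entire_const (P : MvPolynomial ι ℂ) : Entire (V := V) fun _ => P := fun _ =>
  differentiable_const _

omit [Fintype ι] in
theorem entire_monomial (α : ι →₀ ℕ) {f : V → ℂ} (hf : Differentiable ℂ f) :
    Entire fun v => monomial α (f v) := by
  classical
  intro β
  simp only [coeff_monomial]
  by_cases h : α = β
  · simp only [if_pos h]
    exact hf
  · simp only [if_neg h]
    exact differentiable_const _

omit [Fintype ι] in
theorem entire_add {F G : V → MvPolynomial ι ℂ} (hF : Entire F) (hG : Entire G) :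
    Entire fun v => F v + G v := fun α => by
  simp only [coeff_add]
  exact (hF α).add (hG α)

/-- The order of a constant. -/
theorem Valn.ord_const (w : Valn V S) {z : ℂ} (hz : z ≠ 0) : w.ord (fun _ => C z) = 0 :=
  w.unit _ (entire_const _) (by rw [eval_C]; exact hz)

/-- The order of a power product of the coordinates. -/
theorem Valn.ord_monomial_one (w : Valn V S) (α : ι →₀ ℕ) :
    w.ord (fun _ => monomial α 1) = ∑ i, α i * w.wt i := by
  classical
  have hne : ∀ P : MvPolynomial ι ℂ, P ≠ 0 → (fun _ : V => P) ≠ 0 := fun P hP h =>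
    hP (congrFun h w.v₁)
  induction α using Finsupp.induction_linear with
  | zero =>
    have h1 := w.ord_const (z := 1) one_ne_zero
    simp only [Finsupp.coe_zero, Pi.zero_apply, zero_mul, Finset.sum_const_zero]
    exact h1
  | add α β hα hβ =>
    have h1 := w.mul (fun _ => monomial α 1) (fun _ => monomial β 1) (entire_const _)
      (entire_const _) (hne _ (by simp)) (hne _ (by simp))
    simp only [monomial_mul, mul_one] at h1
    rw [h1, hα, hβ, ← Finset.sum_add_distrib]
    refine Finset.sum_congr rfl fun i _ => ?_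
    rw [Finsupp.add_apply]
    ring
  | single i k =>
    rw [Finset.sum_eq_single i]
    · rw [Finsupp.single_eq_same]
      induction k with
      | zero =>
        have h1 := w.ord_const (z := 1) one_ne_zero
        rw [Finsupp.single_zero, zero_mul]
        exact h1
      | succ k ih =>
        have h1 := w.mul (fun _ => monomial (Finsupp.single i k) 1) (fun _ => X i)
          (entire_const _) (entire_const _) (hne _ (by simp)) (hne _ (X_ne_zero i))
        have h2 : (monomial (Finsupp.single i k) (1 : ℂ)) * X i
            = monomial (Finsupp.single i (k + 1)) 1 := by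
          rw [X, monomial_mul, ← Finsupp.single_add, mul_one]
        rw [← h2, h1, ih, Valn.wt]
        ring
    · intro j _ hj
      rw [Finsupp.single_eq_of_ne hj, zero_mul]
    · simp

/-- The order of a monomial. -/
theorem Valn.ord_monomial (w : Valn V S) (α : ι →₀ ℕ) {f : V → ℂ} (hf : Differentiable ℂ f)
    (hf0 : f ≠ 0) : w.ord (fun v => monomial α (f v))
      = w.ord (fun v => C (f v)) + ∑ i, α i * w.wt i := by
  have h0 : (fun v => C (f v) : V → MvPolynomial ι ℂ) ≠ 0 := by
    intro h
    apply hf0
    funext v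
    exact C_injective ι ℂ (by rw [congrFun h v]; simp)
  have h1 := w.mul (fun v => C (f v)) (fun _ => monomial α 1) (entire_monomial 0 hf)
    (entire_const _) h0 (fun h => by
      have := congrFun h w.v₁
      simp at this)
  simp only [C_mul_monomial, mul_one] at h1
  rw [h1, w.ord_monomial_one]

/-- The order of a sum. -/
theorem Valn.ord_sum (w : Valn V S) {J : Type*} (A : Finset J) (F : J → V → MvPolynomial ι ℂ)
    (hF : ∀ a ∈ A, Entire (F a)) {N : ℕ} (hN : ∀ a ∈ A, F a ≠ 0 → N ≤ w.ord (F a)) :
    Entire (fun v => ∑ a ∈ A, F a v) ∧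
      ((fun v => ∑ a ∈ A, F a v) ≠ 0 → N ≤ w.ord fun v => ∑ a ∈ A, F a v) := by
  classical
  induction A using Finset.induction_on with
  | empty =>
    refine ⟨?_, fun h => absurd ?_ h⟩
    · simp only [Finset.sum_empty]
      exact entire_const 0
    · funext v
      simp
  | insert a A ha ih =>
    obtain ⟨h1, h2⟩ := ih (fun b hb => hF b (Finset.mem_insert_of_mem hb))
      fun b hb => hN b (Finset.mem_insert_of_mem hb)
    have h3 : (fun v => ∑ b ∈ insert a A, F b v) = fun v => F a v + ∑ b ∈ A, F b v :=
      funext fun v => Finset.sum_insert ha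
    rw [h3]
    have ha1 := hF a (Finset.mem_insert_self a A)
    refine ⟨entire_add ha1 h1, fun h4 => ?_⟩
    by_cases h5 : F a = 0
    · have h6 : (fun v => F a v + ∑ b ∈ A, F b v) = fun v => ∑ b ∈ A, F b v :=
        funext fun v => by rw [h5, Pi.zero_apply, zero_add]
      rw [h6] at h4 ⊢
      exact h2 h4
    · have h7 := hN a (Finset.mem_insert_self a A) h5
      by_cases h6 : (fun v => ∑ b ∈ A, F b v) = 0
      · have h8 : (fun v => F a v + ∑ b ∈ A, F b v) = F a :=
          funext fun v => by rw [show ∑ b ∈ A, F b v = 0 from congrFun h6 v, add_zero]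
        rw [h8]
        exact h7
      · exact (le_min h7 (h2 h6)).trans (w.add _ _ ha1 h1 h5 h6 h4)

variable {Γ : Subgroup (V ≃ᵃ[ℂ] V)} {n : ℕ}

/-- The order of a section. -/
theorem Valn.ord_section (w : Valn V S) {u : ι → Fin n → ℤ} (hS : IsSmoothFan u S)
    {c : ι → LineBundle Γ} {d : ι → ℤ} {e : Γ → V → ℂ} {G : V → MvPolynomial ι ℂ}
    (hG : IsSection u c d e G) (hG0 : G ≠ 0) {N : ℕ}
    (hN : ∀ v α, coeff α (G v) ≠ 0 → N ≤ ∑ i, α i * w.wt i) : N ≤ w.ord G := by
  classical
  obtain ⟨A, hA⟩ := (finite_class hS d).exists_finset_coe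
  have h1 : G = fun v => ∑ α ∈ A, monomial α (coeff α (G v)) := by
    funext v
    conv_lhs => rw [(G v).as_sum]
    refine Finset.sum_subset (fun α hα => ?_) fun α _ hα => ?_
    · have h2 : α ∈ (A : Set (ι →₀ ℕ)) := by
        rw [hA]
        exact hG.deg v α hα
      exact h2
    · rw [notMem_support_iff.1 hα, monomial_zero]
  have h2 := w.ord_sum A (fun α v => monomial α (coeff α (G v)))
    (fun α _ => entire_monomial α (hG.holo α)) (N := N) fun α _ h => by
      have h3 : ∃ v, coeff α (G v) ≠ 0 := by
        by_contra h4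
        push Not at h4
        exact h (funext fun v => by rw [h4 v, monomial_zero]; rfl)
      obtain ⟨v, hv⟩ := h3
      rw [w.ord_monomial α (hG.holo α) fun h4 => hv (congrFun h4 v)]
      exact (hN v α hv).trans (Nat.le_add_left _ _)
  rw [← h1] at h2
  exact h2.2 hG0

end Q47.FLIP
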